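import Mathlib
import Pool.Agent.Helper29S.Dim

/-!
# Integer vectors near the multiples of a real vector
-/

set_option autoImplicit false

namespace Pool.Agent.Seat74.TR

open Finset
open scoped ENNReal

/-- the cardinality by fibres -/
lemma card_fibres {α β : Type} [DecidableEq α] [DecidableEq β] (f : α → β) (T : Finset α) {B : ℝ}
    (h : ∀ c ∈ T.image f, (((T.filter fun a => f a = c).card : ℕ) : ℝ) ≤ B) :
    (T.card : ℝ) ≤ ((T.image f).card : ℝ) * B := by
  have h1 : T.card = ∑ c ∈ T.image f, (T.filter fun a => f a = c).card :=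
    Finset.card_eq_sum_card_image f T
  rw [h1]
  push_cast
  calc ∑ c ∈ T.image f, (((T.filter fun a => f a = c).card : ℕ) : ℝ) ≤ ∑ _c ∈ T.image f, B :=
        Finset.sum_le_sum h
    _ = _ := by rw [Finset.sum_const, nsmul_eq_mul]

/-- **Integer vectors near the multiples of a real vector.** If a set `S` of integer vectors has at most `C T ^ s`
elements in the box `[-T, T]`, and the sum of the `lam n ^ (-σ)` converges, then all `ξ` outside a set of dimension at
most `(s + σ) / (1 - θ)` have the property that for all but finitely many `n` no element of `S` is within `lam n ^ θ`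
of the vector `lam n ξ + b n`. -/
theorem dil {X : Type} [Fintype X] (S : Set (X → ℤ)) {s C : ℝ} (hs : 0 ≤ s)
    (hcount : ∀ T : ℕ, 1 ≤ T → ∀ F : Finset (X → ℤ), (∀ v ∈ F, v ∈ S ∧ ∀ i, |v i| ≤ T) →
      (F.card : ℝ) ≤ C * (T : ℝ) ^ s)
    (lam : ℕ → ℝ) (h1 : ∀ n, 1 ≤ lam n) {σ : ℝ} (hσ : 0 ≤ σ) (hsum : Summable fun n => lam n ^ (-σ))
    (b : ℕ → X → ℝ) {M : ℝ} (hb : ∀ n i, |b n i| ≤ M * lam n) {θ : ℝ} (hθ : θ < 1) :
    dimH {ξ : X → ℝ | {n : ℕ | ∃ v ∈ S, ∀ i, |(v i : ℝ) - (lam n * ξ i + b n i)| ≤ lam n ^ θ}.Infinite} ≤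
      ENNReal.ofReal ((s + σ) / (1 - θ)) := by
  classical
  have hC : 0 ≤ C := by
    have h2 := hcount 1 le_rfl ∅ (by simp)
    simpa using h2
  have key : ∀ R : ℕ, dimH {ξ : X → ℝ | ‖ξ‖ ≤ R ∧
      {n : ℕ | ∃ v ∈ S, ∀ i, |(v i : ℝ) - (lam n * ξ i + b n i)| ≤ lam n ^ θ}.Infinite} ≤
      ENNReal.ofReal ((s + σ) / (1 - θ)) := by
    intro R
    obtain ⟨Q, hQ⟩ : ∃ Q : ℝ, Q = R + |M| + 1 := ⟨_, rfl⟩
    have hQ1 : 1 ≤ Q := by
      rw [hQ]
      have : (0 : ℝ) ≤ R := Nat.cast_nonneg R
      have := abs_nonneg M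
      linarith
    let S' : Set (ℕ × (X → ℤ)) := {t | t.2 ∈ S ∧ ∀ i, |(t.2 i : ℝ)| ≤ Q * lam t.1}
    let c : ℕ × (X → ℤ) → (X → ℝ) := fun t i => ((t.2 i : ℝ) - b t.1 i) / lam t.1
    refine (dimH_mono ?_).trans (Pool.Agent.Helper29S.dim_family S' c (fun t => lam t.1) (fun t => h1 t.1)
      (s := s + σ) (τ := 1 - θ) (by positivity) (by linarith) ?_)
    · rintro ξ ⟨hξ, hinf⟩
      choose! v hvS hv using fun (n : ℕ) (hn : n ∈ {n : ℕ | ∃ v ∈ S, ∀ i,
        |(v i : ℝ) - (lam n * ξ i + b n i)| ≤ lam n ^ θ}) => hn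
      refine Set.infinite_of_injOn_mapsTo (f := fun n => (n, v n)) (fun n _ m _ h => (Prod.ext_iff.1 h).1) ?_ hinf
      intro n hn
      have hl := h1 n
      have hl0 : 0 < lam n := by linarith
      have hθ1 : lam n ^ θ ≤ lam n := by
        calc lam n ^ θ ≤ lam n ^ (1 : ℝ) := Real.rpow_le_rpow_of_exponent_le hl hθ.le
          _ = lam n := Real.rpow_one _
      refine ⟨⟨hvS n hn, fun i => ?_⟩, ?_⟩
      · have h2 := hv n hn i
        have h3 : |ξ i| ≤ R := (norm_le_pi_norm ξ i).trans hξ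
        have h4 : |(v n i : ℝ)| ≤ |(v n i : ℝ) - (lam n * ξ i + b n i)| + (|lam n * ξ i| + |b n i|) := by
          calc |(v n i : ℝ)| = |((v n i : ℝ) - (lam n * ξ i + b n i)) + (lam n * ξ i + b n i)| := by
                congr 1
                ring
            _ ≤ |(v n i : ℝ) - (lam n * ξ i + b n i)| + |lam n * ξ i + b n i| := abs_add_le _ _
            _ ≤ _ := by
                have := abs_add_le (lam n * ξ i) (b n i)
                linarith
        rw [abs_mul, abs_of_pos hl0] at h4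
        have h5 : lam n * |ξ i| ≤ lam n * R := mul_le_mul_of_nonneg_left h3 hl0.le
        have h6 : |b n i| ≤ |M| * lam n := (hb n i).trans (mul_le_mul_of_nonneg_right (le_abs_self M) hl0.le)
        show |(v n i : ℝ)| ≤ Q * lam n
        rw [hQ]
        nlinarith
      · rw [dist_pi_le_iff (by positivity)]
        intro i
        show |ξ i - ((v n i : ℝ) - b n i) / lam n| ≤ lam n ^ (-(1 - θ))
        have h2 := hv n hn i
        have h3 : ξ i - ((v n i : ℝ) - b n i) / lam n = -((v n i : ℝ) - (lam n * ξ i + b n i)) / lam n := by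
          field_simp
          ring
        rw [h3, abs_div, abs_neg, abs_of_pos hl0, div_le_iff₀ hl0]
        refine h2.trans (le_of_eq ?_)
        calc lam n ^ θ = lam n ^ (-(1 - θ) + 1) := by
              congr 1
              ring
          _ = lam n ^ (-(1 - θ)) * lam n := by rw [Real.rpow_add hl0, Real.rpow_one]
    · intro ε hε
      obtain ⟨Z, hZ⟩ : ∃ Z : ℝ, Z = ∑' n, lam n ^ (-σ) := ⟨_, rfl⟩
      have hZ0 : 0 ≤ Z := by
        rw [hZ]
        exact tsum_nonneg fun n => Real.rpow_nonneg (by linarith [h1 n]) _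
      refine ⟨Z * (C * Q ^ s), fun H hH F hF => ?_⟩
      have hH0 : 0 < H := by linarith
      have hA : ((F.image Prod.fst).card : ℝ) ≤ Z * H ^ σ := by
        have h2 : ∑ n ∈ F.image Prod.fst, lam n ^ (-σ) ≤ Z := by
          rw [hZ]
          exact hsum.sum_le_tsum _ fun n _ => Real.rpow_nonneg (by linarith [h1 n]) _
        have h3 : ((F.image Prod.fst).card : ℝ) * H ^ (-σ) ≤ ∑ n ∈ F.image Prod.fst, lam n ^ (-σ) := by
          rw [← nsmul_eq_mul, ← Finset.sum_const]
          refine Finset.sum_le_sum fun n hn => ?_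
          rw [Finset.mem_image] at hn
          obtain ⟨t, ht, rfl⟩ := hn
          have h4 := (hF t ht).1
          have h5 := h1 t.1
          rw [Real.rpow_neg hH0.le, Real.rpow_neg (by linarith)]
          exact inv_anti₀ (Real.rpow_pos_of_pos (by linarith) _) (Real.rpow_le_rpow (by linarith) h4 hσ)
        have h4 : ((F.image Prod.fst).card : ℝ) * H ^ (-σ) ≤ Z := h3.trans h2
        have h5 : ((F.image Prod.fst).card : ℝ) = ((F.image Prod.fst).card : ℝ) * H ^ (-σ) * H ^ σ := by
          rw [mul_assoc, ← Real.rpow_add hH0, neg_add_cancel, Real.rpow_zero, mul_one]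
        rw [h5]
        exact mul_le_mul_of_nonneg_right h4 (by positivity)
      have hfib : (F.card : ℝ) ≤ ((F.image Prod.fst).card : ℝ) * (C * (Q * H) ^ s) := by
        refine card_fibres Prod.fst F fun n hn => ?_
        have hinj : Set.InjOn Prod.snd ((F.filter fun a => a.1 = n : Finset (ℕ × (X → ℤ))) :
            Set (ℕ × (X → ℤ))) := by
          intro a ha b hb hab
          rw [Finset.mem_coe, Finset.mem_filter] at ha hb
          exact Prod.ext (ha.2.trans hb.2.symm) hab
        rw [← Finset.card_image_of_injOn hinj]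
        rw [Finset.mem_image] at hn
        obtain ⟨t0, ht0, htn⟩ := hn
        have hln : lam n ≤ H := by
          rw [← htn]
          exact (hF t0 ht0).1
        have hl := h1 n
        have hQl : 1 ≤ Q * lam n := one_le_mul_of_one_le_of_one_le hQ1 hl
        have hT1 : 1 ≤ ⌊Q * lam n⌋₊ := Nat.le_floor (by exact_mod_cast hQl)
        have h2 := hcount ⌊Q * lam n⌋₊ hT1 ((F.filter fun a => a.1 = n).image Prod.snd) (by
          intro v hv
          rw [Finset.mem_image] at hv
          obtain ⟨t, ht, rfl⟩ := hv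
          rw [Finset.mem_filter] at ht
          obtain ⟨h3, h4⟩ := (hF t ht.1).2
          refine ⟨h3, fun i => ?_⟩
          have h5 := h4 i
          rw [ht.2] at h5
          have h6 : ((t.2 i).natAbs : ℝ) ≤ Q * lam n := by
            rw [Nat.cast_natAbs, Int.cast_abs]
            exact h5
          have h7 := Nat.le_floor h6
          rw [Int.abs_eq_natAbs]
          exact_mod_cast h7)
        refine h2.trans (mul_le_mul_of_nonneg_left ?_ hC)
        refine Real.rpow_le_rpow (Nat.cast_nonneg _) ?_ hs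
        refine (Nat.floor_le (by linarith)).trans ?_
        exact mul_le_mul_of_nonneg_left hln (by linarith)
      calc (F.card : ℝ) ≤ ((F.image Prod.fst).card : ℝ) * (C * (Q * H) ^ s) := hfib
        _ ≤ (Z * H ^ σ) * (C * (Q * H) ^ s) := mul_le_mul_of_nonneg_right hA (by positivity)
        _ = Z * (C * Q ^ s) * H ^ (s + σ) := by
            rw [Real.mul_rpow (by linarith) hH0.le, Real.rpow_add hH0]
            ring
        _ ≤ Z * (C * Q ^ s) * H ^ (s + σ + ε) := by
            refine mul_le_mul_of_nonneg_left ?_ (by positivity)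
            exact Real.rpow_le_rpow_of_exponent_le hH (by linarith)
  have hsub : {ξ : X → ℝ | {n : ℕ | ∃ v ∈ S, ∀ i, |(v i : ℝ) - (lam n * ξ i + b n i)| ≤ lam n ^ θ}.Infinite} ⊆
      ⋃ R : ℕ, {ξ : X → ℝ | ‖ξ‖ ≤ R ∧
      {n : ℕ | ∃ v ∈ S, ∀ i, |(v i : ℝ) - (lam n * ξ i + b n i)| ≤ lam n ^ θ}.Infinite} := by
    intro ξ hξ
    obtain ⟨R, hR⟩ := exists_nat_ge ‖ξ‖
    exact Set.mem_iUnion.2 ⟨R, hR, hξ⟩
  refine (dimH_mono hsub).trans ?_
  rw [dimH_iUnion]
  exact iSup_le key

end Pool.Agent.Seat74.TR
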