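import Mathlib
import Pool.Agent.Seat74.TR.Dil

/-!
# Almost all real vectors
-/

set_option autoImplicit false

namespace Pool.Agent.Seat74.TR

open Filter Topology MeasureTheory
open scoped ENNReal NNReal

/-- sets of dimension less than the number of coordinates are null sets -/
theorem null_of_dim {X : Type} [Fintype X] {E : Set (X → ℝ)} {D : ℝ} (hD : D < Fintype.card X)
    (hX : 0 < Fintype.card X) (h : dimH E ≤ ENNReal.ofReal D) : volume E = 0 := by
  rw [← hausdorffMeasure_pi_real]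
  have h1 : dimH E < ((Fintype.card X : ℝ≥0) : ℝ≥0∞) := by
    refine lt_of_le_of_lt h ?_
    rw [ENNReal.coe_natCast, ← ENNReal.ofReal_natCast]
    exact (ENNReal.ofReal_lt_ofReal_iff (by exact_mod_cast hX)).2 hD
  have h2 := hausdorffMeasure_of_dimH_lt h1
  simpa using h2

/-- **Almost all real vectors**: if the sums of `lam n ^ (-σ)` converge for all `σ > 0` and for every `δ` the set
`S δ` has at most `C T ^ (|X| - c δ)` elements in the box `[-T, T]`, then for almost all `ξ`, for all `δ` and all large `n`,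
no element of `S δ` is within `lam n ^ (c δ / (2 |X|))` of `lam n ξ + b n`. -/
theorem almost_all {X : Type} [Fintype X] [Nonempty X] (S : ℕ → Set (X → ℤ)) (c : ℕ → ℝ) (hc0 : ∀ δ, 0 < c δ)
    (hc1 : ∀ δ, c δ ≤ 1)
    (hcount : ∀ δ, ∃ C : ℝ, ∀ T : ℕ, 1 ≤ T → ∀ F : Finset (X → ℤ), (∀ v ∈ F, v ∈ S δ ∧ ∀ i, |v i| ≤ T) →
      (F.card : ℝ) ≤ C * (T : ℝ) ^ ((Fintype.card X : ℝ) - c δ))
    (lam : ℕ → ℝ) (h1 : ∀ n, 1 ≤ lam n) (hsum : ∀ σ : ℝ, 0 < σ → Summable fun n => lam n ^ (-σ))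
    (b : ℕ → X → ℝ) {M : ℝ} (hb : ∀ n i, |b n i| ≤ M * lam n) :
    ∀ᵐ ξ : X → ℝ, ∀ δ : ℕ, ∀ᶠ n in atTop, ∀ v ∈ S δ,
      ¬ ∀ i, |(v i : ℝ) - (lam n * ξ i + b n i)| ≤ lam n ^ (c δ / (2 * Fintype.card X)) := by
  rw [ae_all_iff]
  intro δ
  have hX : 0 < Fintype.card X := Fintype.card_pos
  have hX1 : (1 : ℝ) ≤ Fintype.card X := by exact_mod_cast hX
  have hX0 : (0 : ℝ) < Fintype.card X := by linarith
  obtain ⟨C, hC⟩ := hcount δ
  have hδ := hc0 δ
  have hδ1 := hc1 δ
  have hθ : c δ / (2 * Fintype.card X) < 1 := by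
    rw [div_lt_one (by positivity)]
    linarith
  have h2 := dil (S δ) (s := (Fintype.card X : ℝ) - c δ) (C := C) (by linarith) hC lam h1
    (σ := c δ / 4) (by positivity) (hsum _ (by positivity)) b hb hθ
  have h3 : ((Fintype.card X : ℝ) - c δ + c δ / 4) / (1 - c δ / (2 * Fintype.card X)) < Fintype.card X := by
    rw [div_lt_iff₀ (by linarith)]
    have h4 : (Fintype.card X : ℝ) * (1 - c δ / (2 * Fintype.card X)) = Fintype.card X - c δ / 2 := by
      field_simp
    rw [h4]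
    linarith
  have h4 := null_of_dim h3 hX h2
  rw [ae_iff]
  refine measure_mono_null ?_ h4
  intro ξ hξ
  rw [Set.mem_ofPred_eq] at hξ ⊢
  rw [Filter.not_eventually] at hξ
  rw [← Nat.frequently_atTop_iff_infinite]
  refine hξ.mono fun n hn => ?_
  push Not at hn
  obtain ⟨v, hv, hv2⟩ := hn
  exact ⟨v, hv, hv2⟩

/-- exponential growth -/
theorem summable_exp {lam : ℕ → ℝ} {α : ℝ} (hα : 1 < α) (h : ∀ n, α ^ n ≤ lam n) (σ : ℝ) (hσ : 0 < σ) :
    Summable fun n => lam n ^ (-σ) := by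
  have hα0 : 0 < α := by linarith
  have h1 : Summable fun n : ℕ => (α ^ (-σ)) ^ n :=
    summable_geometric_of_lt_one (Real.rpow_nonneg hα0.le _) (Real.rpow_lt_one_of_one_lt_of_neg hα (by linarith))
  refine Summable.of_nonneg_of_le (fun n => ?_) (fun n => ?_) h1
  · have : 0 < lam n := lt_of_lt_of_le (by positivity) (h n)
    positivity
  · have h2 : 0 < α ^ n := by positivity
    calc lam n ^ (-σ) ≤ (α ^ n) ^ (-σ) := by
          rw [Real.rpow_neg (by linarith [h n]), Real.rpow_neg h2.le]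
          exact inv_anti₀ (Real.rpow_pos_of_pos h2 _) (Real.rpow_le_rpow h2.le (h n) hσ.le)
      _ = (α ^ (-σ)) ^ n := by
          rw [← Real.rpow_natCast, ← Real.rpow_natCast, ← Real.rpow_mul hα0.le, ← Real.rpow_mul hα0.le]
          congr 1
          ring

end Pool.Agent.Seat74.TR
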