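import Pool.Agent.N207.AX.Few
import Pool.Agent.Helper264.NT.NearK2

/-!
# Independent functions of several variables at ALL points of number fields near the points outside a set of small dimension
-/

set_option autoImplicit false
set_option linter.unusedSectionVars false

open NumberField Filter
open scoped ENNReal

namespace Pool.Agent.Seat74.TR

open Pool.Agent Pool.Agent.Y890.MV Pool.Agent.N207.AX Pool.Agent.N207.GS Pool.Agent.N207.CF
open Pool.Agent.Y124 (Cov)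

/-- some nonzero polynomial of partial degrees at most `k`, whose coefficients are combinations `∑ ξ i * c i` with
integers `c i` of `K` all of whose conjugates are at most `T ^ k`, vanishes at the numbers `f y s` -/
def Related {X σ : Type} (f : σ → (X → ℂ) → ℂ) (K : Type) [Field K] [NumberField K]
    (io : K →+* ℂ) (k : ℕ) (ξ : Fin k → ℂ) (T : ℝ) (s : X → K) : Prop :=
  ∃ R : MvPolynomial σ ℂ, R ≠ 0 ∧ (∀ y, R.degreeOf y ≤ k) ∧
    (∀ m, ∃ c : Fin k → 𝓞 K, (∀ i (φ : K →+* ℂ), ‖φ (c i : K)‖ ≤ T ^ (k : ℝ)) ∧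
      R.coeff m = ∑ i, ξ i * io (c i : K)) ∧
    MvPolynomial.eval (fun y => f y fun i => io (s i)) R = 0

theorem Related.mono {X σ : Type} {f : σ → (X → ℂ) → ℂ} {K : Type} [Field K] [NumberField K]
    {io : K →+* ℂ} {k k' : ℕ} {ξ : ℕ → ℂ} {T T' : ℝ} {s : X → K} (hk : k ≤ k') (hT : 1 ≤ T) (hTT : T ≤ T')
    (h : Related f K io k (fun i => ξ i) T s) : Related f K io k' (fun i => ξ i) T' s := by
  classical
  obtain ⟨R, h0, h1, h2, h3⟩ := h
  refine ⟨R, h0, fun y => (h1 y).trans hk, fun m => ?_, h3⟩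
  obtain ⟨c, hc, hm⟩ := h2 m
  refine ⟨fun i => if hi : (i : ℕ) < k then c ⟨i, hi⟩ else 0, fun i φ => ?_, ?_⟩
  · by_cases hi : (i : ℕ) < k
    · simp only [dif_pos hi]
      refine (hc _ φ).trans ?_
      refine (Real.rpow_le_rpow (by linarith) hTT (Nat.cast_nonneg _)).trans ?_
      exact Real.rpow_le_rpow_of_exponent_le (hT.trans hTT) (by exact_mod_cast hk)
    · simp only [dif_neg hi]
      have : 0 < T' := by linarith
      have h0 : (((0 : 𝓞 K)) : K) = 0 := rfl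
      rw [h0, map_zero, norm_zero]
      positivity
  · rw [hm]
    have e1 : ∑ i : Fin k', ξ i * io ((if hi : (i : ℕ) < k then c ⟨i, hi⟩ else 0 : 𝓞 K) : K) =
        ∑ i ∈ (Finset.range k'), if hi : i < k then ξ i * io (c ⟨i, hi⟩ : K) else 0 := by
      rw [← Fin.sum_univ_eq_sum_range (fun i => if hi : i < k then ξ i * io (c ⟨i, hi⟩ : K) else 0) k']
      refine Finset.sum_congr rfl fun i _ => ?_
      by_cases hi : (i : ℕ) < k
      · rw [dif_pos hi, dif_pos hi]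
      · rw [dif_neg hi, dif_neg hi]
        simp
    rw [e1]
    have e2 : ∑ i : Fin k, ξ i * io (c i : K) =
        ∑ i ∈ (Finset.range k), if hi : i < k then ξ i * io (c ⟨i, hi⟩ : K) else 0 := by
      rw [← Fin.sum_univ_eq_sum_range (fun i => if hi : i < k then ξ i * io (c ⟨i, hi⟩ : K) else 0) k]
      refine Finset.sum_congr rfl fun i _ => ?_
      rw [dif_pos i.2]
    rw [e2]
    refine Finset.sum_subset (Finset.range_subset_range.2 hk) fun i _ hi => ?_
    rw [Finset.mem_range] at hi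
    rw [dif_neg hi]

theorem HtLe.mono {K : Type} [Field K] [NumberField K] {T T' : ℝ} (h : T ≤ T') {x : K} (hx : Y120.HtLe K T x) :
    Y120.HtLe K T' x := by
  obtain ⟨a, b, hb, h1, h2, h3⟩ := hx
  exact ⟨a, b, hb, h1.trans h, h2.trans h, h3⟩

/-- the points of height at most `T` in a compact set which are related -/
def Bad {X σ : Type} [Fintype X] (U : Set (X → ℂ)) (f : σ → (X → ℂ) → ℂ) (K : Type) [Field K] [NumberField K]
    (io : K →+* ℂ) (k : ℕ) (ξ : Fin k → ℂ) (T : ℝ) : Set (X → K) :=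
  {s | (∀ i, Y120.HtLe K T (s i)) ∧ (fun i => io (s i)) ∈ InnerM U k ∧ Related f K io k ξ T s}

theorem bad_cov {X σ : Type} [Fintype X] [DecidableEq X] [Nonempty X] [Fintype σ] [DecidableEq σ]
    {U : Set (X → ℂ)} {f : σ → (X → ℂ) → ℂ} (hU : IsPreconnected U) (hUo : IsOpen U) (hne : U.Nonempty)
    (hf : ∀ i, AnalyticOnNhd ℂ (f i) U) (h : Ind U f) (k : ℕ) (hk : 0 < k) (m : ℕ) (ε : ℝ) (hε : 0 < ε) :
    ∃ (D : ℕ) (C T₀ : ℝ), 0 ≤ C ∧ 2 ≤ T₀ ∧
      ∀ (K : Type) [Field K] [NumberField K], Module.finrank ℚ K ≤ m → ∀ (io : K →+* ℂ) (ξ : Fin k → ℂ) (T : ℝ),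
        T₀ ≤ T → Cov D ⌊C * T ^ ε⌋₊ ((fun (s : X → K) i => io (s i)) '' Bad U f K io k ξ T) := by
  obtain ⟨D, C, T₀, hC, hT₀, H⟩ := comp hU hUo hne hf (InnerM U k) (innerM_compact _ _) (innerM_sub _ hk) k
    (Fin k) m (k : ℝ) ε hε
  refine ⟨D, C, T₀, hC, hT₀, fun K _ _ hK io ξ T hT => ?_⟩
  refine (H K hK io ξ T hT).mono le_rfl le_rfl (Set.image_mono ?_)
  rintro s ⟨h1, h2, R, h0, h3, h4, h5⟩
  obtain ⟨a, ha⟩ : ∃ a, MvPolynomial.eval a R ≠ 0 := by
    by_contra hcon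
    push Not at hcon
    exact h0 (MvPolynomial.funext fun a => by rw [hcon a, map_zero])
  choose c hc hc' using h4
  refine ⟨h1, h2, fun l => c (Finsupp.equivFunOnFinite.symm fun y => (l y : ℕ)), fun l i φ => hc _ i φ, ?_,
    Set.univ, irr_univ, trivial, fib_univ h _, a, trivial, ?_⟩
  · rw [← h5, ← Y119.PLM.sum_expM h3]
    refine Finset.sum_congr rfl fun l _ => ?_
    rw [hc']
  · rw [← Y119.PLM.sum_expM h3] at ha
    intro h
    apply ha
    rw [← h]
    refine Finset.sum_congr rfl fun l _ => ?_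
    rw [hc']

/-- **Independent functions at all points near a given point.** -/
theorem near_ind {X σ : Type} [Fintype X] [DecidableEq X] [Nonempty X] [Fintype σ] [DecidableEq σ]
    {U : Set (X → ℂ)} {f : σ → (X → ℂ) → ℂ} (hU : IsPreconnected U) (hUo : IsOpen U) (hne : U.Nonempty)
    (hf : ∀ i, AnalyticOnNhd ℂ (f i) U) (h : Ind U f) (ξ : ℕ → ℂ) :
    ∃ E : Set (X → ℂ), dimH E ≤ ((2 * (Fintype.card X - 1) : ℕ) : ℝ≥0∞) ∧ ∀ z ∈ U, z ∉ E →
      ∀ (K : IntermediateField ℚ ℂ) [NumberField K] (k : ℕ) (w : ℝ), 0 < w → ∃ T₀ : ℝ, ∀ T ≥ T₀, ∀ s : X → K,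
        (∀ j, Y120.HtLe K T (s j) ∧ ‖(s j : ℂ) - z j‖ ≤ T ^ (-w)) →
          ¬ Related f K (algebraMap K ℂ) k (fun i => ξ i) T s := by
  classical
  have hcount : Countable ({K : IntermediateField ℚ ℂ | NumberField K}) :=
    (Helper264.NT.countable_fields' (𝕜 := ℂ)).to_subtype
  let J : Type := {K : IntermediateField ℚ ℂ | NumberField K} × ℕ
  have hJ : Countable J := inferInstance
  let Ex : J → ℝ → ℝ → Set (X → ℂ) := fun j _ T =>
    haveI : NumberField j.1.1 := j.1.2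
    (fun (s : X → j.1.1) i => (s i : ℂ)) '' Bad U f j.1.1 (algebraMap j.1.1 ℂ) (j.2 + 1) (fun i => ξ i) (max 1 T)
  have hthin : ∀ j, Helper264.NT.Thin (((j.2 + 1 : ℕ) : ℝ)) (Ex j) := by
    intro j
    haveI : NumberField j.1.1 := j.1.2
    refine ⟨?_, ?_, ?_, ?_⟩
    · rintro B T _ ⟨s, ⟨-, h2, -⟩, rfl⟩
      rw [mem_closedBall_zero_iff]
      exact h2.1
    · rintro B B' T T' - - - - hTT - _ ⟨s, ⟨h1, h2, h3⟩, rfl⟩
      exact ⟨s, ⟨fun i => HtLe.mono (max_le_max le_rfl hTT) (h1 i), h2,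
        h3.mono le_rfl (le_max_left _ _) (max_le_max le_rfl hTT)⟩, rfl⟩
    · intro B B' T _ _
      exact subset_rfl
    · intro ε hε
      obtain ⟨D, C, T₀, hC, hT₀, H⟩ := bad_cov hU hUo hne hf h (j.2 + 1) (Nat.succ_pos _)
        (Module.finrank ℚ j.1.1) ε hε
      have hT₀1 : 1 ≤ T₀ := by linarith
      refine ⟨D, 0, C * T₀ ^ ε, by positivity, fun T hT => ?_⟩
      -- at the level `max T T₀`
      obtain ⟨Φ, g1, g2, g3⟩ := H j.1.1 le_rfl (algebraMap j.1.1 ℂ) (fun i => ξ i) (max T T₀) (le_max_right _ _)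
      have hTp : 0 < T := by linarith
      refine ⟨Φ, ?_, g2, ?_⟩
      · have h4 : (Φ.card : ℝ) ≤ C * (max T T₀) ^ ε := by
          have h5 : (Φ.card : ℝ) ≤ ((⌊C * (max T T₀) ^ ε⌋₊ : ℕ) : ℝ) := by exact_mod_cast g1
          exact h5.trans (Nat.floor_le (by positivity))
        have h6 : (max T T₀) ^ ε ≤ T₀ ^ ε * T ^ ε := by
          rw [← Real.mul_rpow (by linarith) hTp.le]
          refine Real.rpow_le_rpow (by positivity) ?_ hε.le
          exact max_le (by nlinarith) (by nlinarith)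
        calc (Φ.card : ℝ) ≤ C * (max T T₀) ^ ε := h4
          _ ≤ C * (T₀ ^ ε * T ^ ε) := mul_le_mul_of_nonneg_left h6 hC
          _ = C * T₀ ^ ε * T ^ ε := by ring
      · rintro _ ⟨s, ⟨h1, h2, h3⟩, rfl⟩
        have hle : max 1 T ≤ max T T₀ := max_le (hT.trans (le_max_left _ _)) (le_max_left _ _)
        obtain ⟨P, hP, hP0⟩ := g3 _ ⟨s, ⟨fun i => HtLe.mono hle (h1 i), h2,
          h3.mono le_rfl (le_max_left _ _) hle⟩, rfl⟩
        refine ⟨P, hP, ?_⟩
        rw [← MvPolynomial.coe_aeval_eq_eval] at hP0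
        exact hP0
  obtain ⟨E, hE1, hE2⟩ := Helper264.NT.near_all (𝕜 := ℂ) (X := X) (J := J) (fun j => ((j.2 + 1 : ℕ) : ℝ))
    (fun j => by exact_mod_cast Nat.succ_le_succ (Nat.zero_le _)) Ex hthin
  refine ⟨E, by simpa using hE1, fun z hz hzE K hK k w hw => ?_⟩
  -- a compact set which contains the neighbourhood of `z`
  obtain ⟨r, hr, hball⟩ := Metric.isOpen_iff.1 hUo z hz
  obtain ⟨q1, hq1⟩ := exists_nat_gt (2 / r)
  obtain ⟨q2, hq2⟩ := exists_nat_ge (‖z‖ + r)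
  set q : ℕ := max k (max q1 q2) with hq
  obtain ⟨B, T0, hT0⟩ := hE2 z hzE (⟨K, hK⟩, q) w hw
  -- the distance is small for large `T`
  have hlim : Tendsto (fun T : ℝ => T ^ (-w)) atTop (nhds 0) := tendsto_rpow_neg_atTop hw
  obtain ⟨T1, hT1⟩ := (hlim.eventually_lt_const (show (0 : ℝ) < r / 2 by positivity)).exists_forall_of_atTop
  refine ⟨max (max 1 T0) T1, fun T hT s hs hrel => ?_⟩
  have hT1' : 1 ≤ T := le_trans (le_trans (le_max_left _ _) (le_max_left _ _)) hT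
  have hTT0 : T0 ≤ T := le_trans (le_trans (le_max_right _ _) (le_max_left _ _)) hT
  have hTT1 : T1 ≤ T := le_trans (le_max_right _ _) hT
  have hmax : max 1 T = T := max_eq_right hT1'
  have hdist : dist (fun i => (s i : ℂ)) z ≤ T ^ (-w) := by
    have hTp : 0 < T := by linarith
    rw [dist_pi_le_iff (by positivity)]
    intro i
    rw [dist_eq_norm]
    exact (hs i).2
  have hsmall : dist (fun i => (s i : ℂ)) z < r / 2 := lt_of_le_of_lt hdist (hT1 T hTT1)
  have hq1' : (q1 : ℝ) ≤ ((q + 1 : ℕ) : ℝ) := by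
    exact_mod_cast ((le_max_left q1 q2).trans (le_max_right k _)).trans (Nat.le_succ q)
  have hq2' : (q2 : ℝ) ≤ ((q + 1 : ℕ) : ℝ) := by
    exact_mod_cast ((le_max_right q1 q2).trans (le_max_right k _)).trans (Nat.le_succ q)
  refine hT0 T hTT0 (fun i => (s i : ℂ)) ⟨s, ⟨fun i => ?_, ⟨?_, ?_⟩, ?_⟩, rfl⟩ hdist
  · rw [hmax]
    exact (hs i).1
  · have h1 : ‖fun i => (s i : ℂ)‖ ≤ ‖z‖ + r := by
      have h2 : ‖fun i => (s i : ℂ)‖ ≤ ‖z‖ + dist (fun i => (s i : ℂ)) z := by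
        rw [dist_eq_norm]
        calc ‖fun i => (s i : ℂ)‖ = ‖z + ((fun i => (s i : ℂ)) - z)‖ := by
              congr 1
              abel
          _ ≤ _ := norm_add_le _ _
      linarith
    exact h1.trans (hq2.trans hq2')
  · intro y hy
    apply hball
    rw [Metric.mem_ball] at hy ⊢
    have h3 : (((q + 1 : ℕ) : ℝ))⁻¹ ≤ r / 2 := by
      have h4 : 2 / r < ((q + 1 : ℕ) : ℝ) := lt_of_lt_of_le hq1 hq1'
      have h5 : (0 : ℝ) < 2 / r := by positivity
      calc (((q + 1 : ℕ) : ℝ))⁻¹ ≤ (2 / r)⁻¹ := inv_anti₀ h5 h4.le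
        _ = r / 2 := by rw [inv_div]
    calc dist y z ≤ dist y (fun i => (s i : ℂ)) + dist (fun i => (s i : ℂ)) z := dist_triangle _ _ _
      _ < r / 2 + r / 2 := by
          refine add_lt_add_of_le_of_lt ?_ hsmall
          exact (le_of_lt hy).trans h3
      _ = r := by ring
  · rw [hmax]
    exact hrel.mono ((le_max_left k _).trans (Nat.le_succ q)) hT1' le_rfl

end Pool.Agent.Seat74.TR
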